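import Pool.Agent.H75.SP.Side

/-!
# MP_3dbb84_gt, Q1: exact Lagrangian submanifolds over spheres and spherical space forms

Q1 asks whether every closed exact Lagrangian submanifold `L` of the cotangent bundle of a closed
manifold `N` is the image of the zero section under a symplectic diffeomorphism. Let `N = Sⁿ / Γ` be a
spherical space form (a sphere, a real projective space, a lens space, ...), `n ≥ 1`. Every angle function
`θ(|p|)` gives a symplectic diffeomorphism of `T*N`, which moves `(q, p)` on the geodesic with the
direction `p` by the distance `θ(|p|)` (for `θ = t |p|` the geodesic flow, and `θ(0) = π` is allowed, as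
for the model Dehn twist). The theorem says that the answer is positive for all `L` such that

* for some angle function the map `L → N`, `(q, p) ↦ cos θ q + sin θ p / |p|`, is an immersion, or
* the tangent planes of `L` are one-sided: there is `t ≠ 0` with `|δq|² + t ⟪δq, δp⟫ > 0` for all tangent
  vectors `(δq, δp)` of `L` with `δq ≠ 0`. This says that the branches of `L` are the differentials of
  (multivalued) semiconvex, or semiconcave, functions on `N`. Nothing is assumed at vertical tangent
  vectors.

Neither the connectedness of `L` nor anything on its topology is assumed, the fibres may meet `L` in any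
number of points, and `L` need not be transverse to them.

The proof. The second condition implies the first one for the angle `arctan (t |p|)`. Let `R` be the
symplectic diffeomorphism with the angle `θ`. It changes the form `p dq` by the differential of a function
of `|p|²`, so `R(L)` is a closed exact Lagrangian submanifold, and it is transverse to the fibres. By the
inverse function theorem and the connectedness of the sphere it meets every fibre. If it meets some
fibre twice, then the difference of the values of a primitive of `p dq` at two different points of
`R(L)` in the same fibre has a maximum, and there the two points are equal, a contradiction. So `R(L)` is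
the graph of the differential of a function `g` on `N`, and `L` is the image of the zero section under
`(q, p) ↦ R⁻¹(q, p + dg(q))`.

The definitions are in `Pool.Agent.H75.SP.Defs`. Objects on `T*N` are given by their lifts to `T*Sⁿ`,
which is the set of the pairs `(q, p)` of vectors of `ℝⁿ⁺¹` with `|q| = 1` and `⟪q, p⟫ = 0`.
-/

set_option autoImplicit false

namespace Pool.Agent.Results.MP_3dbb84_gt.SphericalSpaceForms

open Pool.Agent.H75.SP

/-- Let `Λ` be the preimage in `T*Sⁿ`, `n ≥ 1`, of a closed exact Lagrangian submanifold `L` of
`T*(Sⁿ / Γ)`. Suppose that, for some smooth angle function `θ(|p|)`, the map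
`(q, p) ↦ cos θ q + sin θ p / |p|` is an immersion of `Λ` into the sphere, or that the tangent planes of
`Λ` are one-sided. Then `L` is the image of the zero section under a symplectic diffeomorphism of
`T*(Sⁿ / Γ)`. -/
theorem result (n : ℕ) (hn : 1 ≤ n) (Γ : Subgroup (Isom n)) (Λ : Set (W n))
    (hΛ : IsLagrangian Γ Λ) (hE : IsExact Γ Λ)
    (hT : (∃ a b : ℝ → ℝ, IsRotation a b ∧ IsTransverse a b Λ) ∨ IsOneSided Λ) :
    IsImage Γ Λ := by
  rcases hT with ⟨a, b, hab, hT⟩ | hT
  · exact main hn hΛ hE hab hT
  · exact main_oneSided hn hΛ hE hT

end Pool.Agent.Results.MP_3dbb84_gt.SphericalSpaceForms
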